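import Pool.Agent.helper32.EXC.Spec11

/-!
# Project EXC (MP_561ff4_al), block `r = 11`: row MI8
-/

set_option autoImplicit false

open Finset

namespace Pool.Agent.EXC

theorem T11MI8_sb (F : Type) [Field F] (i : Fin 5) : ((sb8 i : ℤ) : F) ≠ 0 := by
  have h : sb8 i = 1 ∨ sb8 i = -1 := by
    revert i
    decide
  rcases h with h | h <;> rw [h] <;> simp

theorem T11MI8 (hNBR : NBR_stmt) (hT11TPR : T11TPR_stmt) (hT11TR8 : T11TR8_stmt) (hT11WA8 : T11WA8_stmt)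
    (hTPF : TPF_stmt) (hT11XGS : T11XGS_stmt) (hXAU : XAU_stmt) (hEXF : EXF_stmt) : T11MI8_stmt := by
  intro _ F _ j0 δ hE i m hm
  have hβ := (hNBR 8 CartanMatrix.E₈ j0 th8 δ hE).1
  obtain ⟨hAu, hExE, hEx, -⟩ := hEXF 8 CartanMatrix.E₈ F hβ
  obtain ⟨j, hj⟩ : ∃ j, ip CartanMatrix.E₈ (lt8 (bs8 i)) (mu8 j) = m := by
    rcases hm with rfl | rfl
    · exact (bs8_mu i).1
    · exact (bs8_mu i).2
  have hT1 : Tp CartanMatrix.E₈ th8 (E CartanMatrix.E₈ (lt8 (bs8 i)) : Lm CartanMatrix.E₈ F)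
      (E CartanMatrix.E₈ (mu8 j)) m := by
    have := hT11TPR 8 CartanMatrix.E₈ F j0 th8 δ hE (lt8 (bs8 i)) (mu8 j) (lt8_root _) (mu8_root j)
    rwa [hj] at this
  obtain ⟨hg, hinv, -, -, -⟩ := hT11WA8 F hβ (wd8 i) []
  obtain ⟨-, -, -, hmap, -⟩ := hT11WA8 F hβ (wi8 (wd8 i)) []
  have hT2 := (hTPF 8 CartanMatrix.E₈ F th8 hE.th2 hβ _ _ m hT1).2.2.1 _ hg
  have hT3 := (hTPF 8 CartanMatrix.E₈ F th8 hE.th2 hβ _ _ m hT2).2.2.2.1 _ 1 (T11MI8_sb F i) one_ne_zero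
  rw [one_smul] at hT3
  refine ⟨gw8 F (wd8 i) (E CartanMatrix.E₈ (mu8 j)), hT3, fun g hgX v => ?_⟩
  have hX := (hEx _ (hExE (mu8 j) (mu8_root j))).1
  obtain ⟨-, -, hc, -⟩ := hXAU 8 CartanMatrix.E₈ F (E CartanMatrix.E₈ (mu8 j)) hX
  have hc2 := (hc _ (hAu _ hg)).2
  obtain ⟨w, hw⟩ := hmap v
  have hv : gw8 F (wd8 i) (em8 w) = em8 v := by
    rw [← hw, hinv]
    exact LinearEquiv.apply_symm_apply (gw8 F (wd8 i)) (em8 v)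
  rw [hgX, ← hv, ← hc2, hT11TR8 F j 1 w]

end Pool.Agent.EXC
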